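import Pool.Agent.H131.EU.Small

/-!
Self-avoiding walk on `ℤ³`: let `X_a` and `X'_b` be the numbers of `a`-step extensions at the end
point and of `b`-step extensions at the starting point of the uniform `n`-step walk.  If `a` or `b`
is even, they are asymptotically uncorrelated, with covariance `O(n^(-1/3+o(1)))`.  If both are odd,
their covariance is `μ^(a+b) (1 - (c_(n+1) / (μ c_n))²) + O(n^(-1/3+o(1)))`; so `c_(n+1)/c_n → μ`
(open, and necessary for Q1) if and only if they are asymptotically uncorrelated, and one-sided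
information at sparse lengths suffices.
-/

set_option autoImplicit false

namespace Pool.Agent.Results.MP_794e6e_pr.EndsUncorrelated

open Filter Topology H131.EU

theorem hyp (k l : ℕ) : ∃ B : ℝ, Hyp (fun n => (c n : ℝ))
    (fun n => (H982.CL.mu3 ^ (2 * k) * H982.CL.mu3 ^ (2 * l))⁻¹ * Cv (2 * k + 1) (2 * l + 1) n)
    H982.CL.mu3 B B (c 1) := by
  have hmu := mu_pos
  obtain ⟨B1, hB1, h1⟩ := log_rat
  obtain ⟨B2, hB2, h2⟩ := (Cv_odd k l).const_mul (H982.CL.mu3 ^ (2 * k) * H982.CL.mu3 ^ (2 * l))⁻¹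
  refine ⟨B1 + B2, hmu, by linarith, c_pos, fun n hn => ?_, fun n hn => ?_, c_succ_le⟩
  · refine (h1 n hn).trans ?_
    exact mul_le_mul (by linarith) (phi_mono (by linarith) n) (phi_nonneg _ _) (by linarith)
  · have h3 := (h2 n hn).trans (mul_le_mul (show B2 ≤ B1 + B2 by linarith)
      (phi_mono (show B2 ≤ B1 + B2 by linarith) n) (phi_nonneg _ _) (by linarith))
    have p0 := c_pos n
    have e : (H982.CL.mu3 ^ (2 * k) * H982.CL.mu3 ^ (2 * l))⁻¹ * Cv (2 * k + 1) (2 * l + 1) n -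
        (H982.CL.mu3 ^ 2 - ((c (n + 1) : ℝ) / c n) ^ 2) =
        (H982.CL.mu3 ^ (2 * k) * H982.CL.mu3 ^ (2 * l))⁻¹ * (Cv (2 * k + 1) (2 * l + 1) n -
          H982.CL.mu3 ^ (2 * k + 1 + (2 * l + 1)) *
          (1 - ((c (n + 1) : ℝ) / (H982.CL.mu3 * c n)) ^ 2)) := by
      have e2 : H982.CL.mu3 ^ (2 * k + 1 + (2 * l + 1)) =
        H982.CL.mu3 ^ (2 * k) * H982.CL.mu3 ^ (2 * l) * H982.CL.mu3 ^ 2 := by ring
      rw [e2]
      field_simp
    rw [e]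
    exact h3

/-- **Theorem.** Let `c n` be the number of `n`-step self-avoiding walks on `ℤ³` from `0`, `E n` the
mean over these walks, `XE a` the number of `a`-step self-avoiding extensions of the walk at its end
point, `XS b` the number of `b`-step self-avoiding extensions at its starting point, and `Cv a b n`
the covariance of `XE a` and `XS b`.  There is `μ > 0` with `(c n)^(1/n) → μ` such that:
(1) `E n (XE a) = E n (XS a) = c (n+a) / c n`;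
(2) if `a + b` is even then, for some `B`, `|E n (XE a * XS b) - μ^(a+b)| ≤ φ_B n` for all `n ≥ 3`,
where `φ_B n = B n^(-1/3) exp(B (log log n)²)`;
(3) if `a` or `b` is even then, for some `B`, `|Cv a b n| ≤ φ_B n` for all `n ≥ 3`;
(4) if `a`, `b` are odd then, for some `B`,
`|Cv a b n - μ^(a+b) (1 - (c (n+1) / (μ c n))²)| ≤ φ_B n` for all `n ≥ 3`;
(5) if `a`, `b` are odd then `limsup Cv a b n * Cv a b (n+1) ≤ 0`;
(6) if `a`, `b` are odd, the following are equivalent: (i) `c (n+1) / c n → μ`; (ii) `Cv a b n → 0`;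
(iii) there is a set `S` of lengths which meets `[n, n + n^(1/3-ε)]` for all large `n`, for some
`ε > 0`, such that for every `δ > 0` all large `n ∈ S` satisfy `Cv a b n ≥ -δ` and
`Cv a b (n+1) ≥ -δ`; (iv) the same with `Cv a b n ≤ δ` and `Cv a b (n+1) ≤ δ`;
(7) for `A > 0` and real `γ`: `c n / (A μ^n n^(γ-1)) → 1` if and only if this holds along the even
`n` and `Cv 1 1 n → 0`. -/
theorem result : ∃ μ : ℝ, 0 < μ ∧
    Tendsto (fun n : ℕ => (c n : ℝ) ^ (1 / (n : ℝ))) atTop (𝓝 μ) ∧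
    (∀ a n : ℕ, E n (fun ω => (XE a ω : ℝ)) = (c (n + a) : ℝ) / c n ∧
      E n (fun ω => (XS a ω : ℝ)) = (c (n + a) : ℝ) / c n) ∧
    (∀ a b : ℕ, Even (a + b) → ∃ B : ℝ, ∀ n : ℕ, 3 ≤ n →
      |E n (fun ω => (XE a ω : ℝ) * XS b ω) - μ ^ (a + b)| ≤
        B * ((n : ℝ) ^ (-(1 / 3 : ℝ)) * Real.exp (B * Real.log (Real.log n) ^ 2))) ∧
    (∀ a b : ℕ, Even a ∨ Even b → ∃ B : ℝ, ∀ n : ℕ, 3 ≤ n → |Cv a b n| ≤
        B * ((n : ℝ) ^ (-(1 / 3 : ℝ)) * Real.exp (B * Real.log (Real.log n) ^ 2))) ∧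
    (∀ a b : ℕ, Odd a → Odd b →
      (∃ B : ℝ, ∀ n : ℕ, 3 ≤ n →
        |Cv a b n - μ ^ (a + b) * (1 - ((c (n + 1) : ℝ) / (μ * c n)) ^ 2)| ≤
        B * ((n : ℝ) ^ (-(1 / 3 : ℝ)) * Real.exp (B * Real.log (Real.log n) ^ 2))) ∧
      (∀ δ : ℝ, 0 < δ → ∀ᶠ n : ℕ in atTop, Cv a b n * Cv a b (n + 1) ≤ δ) ∧
      [Tendsto (fun n : ℕ => (c (n + 1) : ℝ) / c n) atTop (𝓝 μ),
        Tendsto (Cv a b) atTop (𝓝 0),
        ∃ S : Set ℕ, Recurs S ∧ ∀ δ : ℝ, 0 < δ → ∀ᶠ n : ℕ in atTop, n ∈ S →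
          -δ ≤ Cv a b n ∧ -δ ≤ Cv a b (n + 1),
        ∃ S : Set ℕ, Recurs S ∧ ∀ δ : ℝ, 0 < δ → ∀ᶠ n : ℕ in atTop, n ∈ S →
          Cv a b n ≤ δ ∧ Cv a b (n + 1) ≤ δ].TFAE) ∧
    ∀ A γ : ℝ, 0 < A →
      (Tendsto (fun n : ℕ => (c n : ℝ) / (A * μ ^ n * (n : ℝ) ^ (γ - 1))) atTop (𝓝 1) ↔
        Tendsto (fun n : ℕ => (c (2 * n) : ℝ) /
          (A * μ ^ (2 * n) * ((2 * n : ℕ) : ℝ) ^ (γ - 1))) atTop (𝓝 1) ∧
        Tendsto (Cv 1 1) atTop (𝓝 0)) := by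
  have hmu := mu_pos
  refine ⟨H982.CL.mu3, hmu, ?_, fun a n => ⟨E_XE a n, E_XS a n⟩, ?_, ?_, ?_, ?_⟩
  · have h := Pool.Agent.H46R2.K3.P.tendsto_c
    refine h.congr fun n => ?_
    rw [c_eq, H982.CL.c3_eq]
  · intro a b hab
    obtain ⟨B, -, h⟩ := mean_even a b hab
    exact ⟨B, h⟩
  · rintro a b (h | h)
    · obtain ⟨k, rfl⟩ := h.two_dvd
      obtain ⟨B, -, h⟩ := Cv_even_left k b
      exact ⟨B, h⟩
    · obtain ⟨k, rfl⟩ := h.two_dvd
      obtain ⟨B, -, h⟩ := Cv_even_right a k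
      exact ⟨B, h⟩
  · rintro a b ⟨k, rfl⟩ ⟨l, rfl⟩
    obtain ⟨B, -, h⟩ := Cv_odd k l
    obtain ⟨B', H⟩ := hyp k l
    have hκ : 0 < (H982.CL.mu3 ^ (2 * k) * H982.CL.mu3 ^ (2 * l))⁻¹ := by positivity
    exact ⟨⟨B, h⟩, H.opposite' hκ (fun _ => rfl), H.tfae' hκ (fun _ => rfl)⟩
  · intro A γ hA
    obtain ⟨B', H⟩ := hyp 0 0
    have h1 := H.asymp A γ hA
    simpa using h1

end Pool.Agent.Results.MP_794e6e_pr.EndsUncorrelated
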