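import Pool.Agent.H982.DN16

/-!
# The number of bridges

For every `d ≥ 2` the number `b_k` of the `k`-step bridges on `Z^d` satisfies
`∑_{k ≤ n} b_k μ^(-k) ≤ C n / log n`; so the probability that the uniform `k`-step self-avoiding walk is
a bridge is at most `C / log n`, on average over `k ≤ n`.
-/

set_option autoImplicit false

namespace Pool.Agent.Results.MP_794e6e_pr.FewBridgesOnAverage

open Filter Topology

/-- the nearest neighbours of the origin of `Z^d` -/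
def Step (d : ℕ) : Set (Fin d → ℤ) := {v | ∑ k, |v k| = 1}

/-- the position at time `i` of the walk which starts at the origin and has the steps `w` -/
def pos {d : ℕ} (w : List (Fin d → ℤ)) (i : ℕ) : Fin d → ℤ := (w.take i).sum

/-- `w` is the list of steps of a nearest-neighbour self-avoiding walk from the origin -/
def IsSAW {d : ℕ} (w : List (Fin d → ℤ)) : Prop :=
  (∀ a ∈ w, a ∈ Step d) ∧ ∀ i j, i < j → j ≤ w.length → pos w i ≠ pos w j

/-- bridges in the direction of the coordinate `x` -/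
def IsBridge {d : ℕ} (x : Fin d) (w : List (Fin d → ℤ)) : Prop :=
  IsSAW w ∧ ∀ i, 0 < i → i ≤ w.length → 0 < pos w i x ∧ pos w i x ≤ pos w w.length x

/-- the number of self-avoiding walks with `n` steps from the origin -/
noncomputable def c (d n : ℕ) : ℕ := {w : List (Fin d → ℤ) | w.length = n ∧ IsSAW w}.ncard

/-- the number of bridges with `n` steps -/
noncomputable def b {d : ℕ} (x : Fin d) (n : ℕ) : ℕ :=
  {w : List (Fin d → ℤ) | w.length = n ∧ IsBridge x w}.ncard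

lemma c_eq (d n : ℕ) : c d n = Pool.Agent.Q234.HS.N (Pool.Agent.Q234.HS.Zd.St d)
    Pool.Agent.Q234.HS.Saw n := by
  unfold c Pool.Agent.Q234.HS.N Pool.Agent.Q234.HS.W
  congr 1
  ext w
  rw [Set.mem_ofPred_eq, Set.mem_ofPred_eq, H982.DN.saw_iff]
  exact Iff.rfl

lemma b_eq {d : ℕ} {x y : Fin d} (hxy : x ≠ y) (n : ℕ) :
    b x n = Pool.Agent.Q234.HS.N (H982.DN.cub x y hxy).S
      (Pool.Agent.Q234.HS.Br (H982.DN.cub x y hxy).l) n := by
  unfold b Pool.Agent.Q234.HS.N Pool.Agent.Q234.HS.W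
  congr 1
  ext w
  have hw : pos w w.length = w.sum := by
    unfold pos
    rw [List.take_length]
  rw [Set.mem_ofPred_eq, Set.mem_ofPred_eq, H982.DN.br_iff, H982.DN.saw_iff]
  unfold IsBridge IsSAW
  rw [hw, and_assoc]
  exact Iff.rfl

lemma diag_one {d : ℕ} {x y : Fin d} (hxy : x ≠ y) : ∀ a ∈ (H982.DN.cub x y hxy).S,
    0 < H982.DN.dg (H982.DN.cub x y hxy) a → H982.DN.dg (H982.DN.cub x y hxy) a = 1 := by
  intro a ha h
  have h0 : ∑ k, |a k| = 1 := ha
  have h1 : |a x| + |a y| ≤ ∑ k, |a k| := by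
    rw [← Finset.sum_pair hxy (f := fun k => |a k|)]
    exact Finset.sum_le_sum_of_subset_of_nonneg (Finset.subset_univ _) fun _ _ _ => abs_nonneg _
  rw [h0] at h1
  change 0 < a x + a y at h
  change a x + a y = 1
  have h2 := le_abs_self (a x)
  have h3 := le_abs_self (a y)
  omega

/-- **Bridges are few on average**, on `Z^d` for every `d ≥ 2`. -/
theorem result : ∀ d : ℕ, 2 ≤ d → ∃ μ : ℝ, 0 < μ ∧
    Tendsto (fun n : ℕ => (c d n : ℝ) ^ (1 / (n : ℝ))) atTop (𝓝 μ) ∧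
    ∀ x : Fin d, ∃ C : ℝ, 0 < C ∧ ∀ n : ℕ, 2 ≤ n →
      ∑ k ∈ Finset.range (n + 1), (b x k : ℝ) / μ ^ k ≤ C * n / Real.log n ∧
      ∑ k ∈ Finset.range (n + 1), (b x k : ℝ) / c d k ≤ C * n / Real.log n := by
  intro d hd
  have h01 : (⟨0, by omega⟩ : Fin d) ≠ ⟨1, by omega⟩ := by
    intro h
    have := congrArg Fin.val h
    simp at this
  obtain ⟨μ, F⟩ := H982.DN.exists_fct (H982.DN.cub _ _ h01)
  have hlim : Tendsto (fun n : ℕ => (c d n : ℝ) ^ (1 / (n : ℝ))) atTop (𝓝 μ) := by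
    simp only [c_eq]
    exact F.lim
  refine ⟨μ, F.pos, hlim, fun x => ?_⟩
  obtain ⟨y, hxy⟩ : ∃ y : Fin d, x ≠ y := by
    by_cases h : x = ⟨0, by omega⟩
    · exact ⟨⟨1, by omega⟩, by rw [h]; exact h01⟩
    · exact ⟨⟨0, by omega⟩, h⟩
  obtain ⟨μ', F'⟩ := H982.DN.exists_fct (H982.DN.cub x y hxy)
  have e : μ' = μ := tendsto_nhds_unique F'.lim F.lim
  subst e
  obtain ⟨C, hC, h⟩ := H982.DN.br_avg F' (diag_one hxy)
  refine ⟨C, hC, fun n hn => ?_⟩
  have h1 : ∑ k ∈ Finset.range (n + 1), (b x k : ℝ) / μ' ^ k ≤ C * n / Real.log n := by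
    simp only [b_eq hxy]
    exact h n hn
  refine ⟨h1, le_trans (Finset.sum_le_sum fun k _ => ?_) h1⟩
  have h2 : μ' ^ k ≤ (c d k : ℝ) := by
    rw [c_eq]
    exact H982.DN.saw_ge F' k
  exact div_le_div_of_nonneg_left (Nat.cast_nonneg _) (pow_pos F'.pos k) h2

end Pool.Agent.Results.MP_794e6e_pr.FewBridgesOnAverage
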