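import Pool.Agent.H580.GT.Lengths
import Pool.Graph.R_seed8.Results.MP_794e6e_pr.LocalBalance

/-!
# Self-avoiding walks on `ℤ³`: the Gibbs property of the local configurations at the fugacity `1/μ`

The local configurations of the uniform `n`-step self-avoiding walk on `ℤ^d` satisfy the
Dobrushin-Lanford-Ruelle equations of the fugacity `1/μ`, `μ` the connective constant, for any number
of strands of the walk in a window and localised in space and in time: for two patterns `P`, `P'`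
(lists of disjoint self-avoiding strands in a window `Λ`, the `i`-th strands having the same end
points) and any weights `w x`, the sum of `w x (1[x + P'] - μ^(|P| - |P'|) 1[x + P])` over the
translates of the window is small, with Gaussian tails. The only cost is a power of `n H`, where `H`
is a bound for `c_j / μ^j`, `j ≤ n`, and the exponent of this power does not depend on the patterns.

On `ℤ³` the bound `c_n ≤ μ^n exp (K n^(1/3) exp (K (log log n)²))` of the library makes the sum of order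
at most `n^(2/3 + o(1))` for all `n`, unconditionally; if `c_n ≤ B μ^n n^b`, in particular if the
asymptotic formula of the problem is true, it is of order at most `√(n log n)`. For infinitely many `n`
it is of order at most `√(n log n)` unconditionally on `ℤ³`, and of order at most
`√(n log n) + log (c_n / μ^n)` in all dimensions (this is again `√(n log n)`, by the theorem of Hammersley
and Welsh): this is so at the lengths at which `log c_n` touches its concave majorant.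

The proof, in the manner of `Pool.Agent.H986.GB` (two dimensions): in the grand canonical ensemble at
the fugacity `exp (-2 G / n) / μ`, `G = log (n H)`, the windows of one residue class are independent
switches; submultiplicativity bounds the partition function by a power of `n H`. If
`c_j ≤ H c_n ν^(j - n)` for all `j`, then at the fugacity `exp (-1 / n) / ν` the whole partition function is
at most `e n H` times the weight of the `n`-step walks. If the concave majorant of `log (c_j / μ^j)` is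
attained at `n` then this holds with a constant `H` and `ν = μ e^s`, `s n ≤ log (c_n / μ^n) ≤ B √n`.
-/

set_option autoImplicit false

open Filter Topology

namespace Pool.Agent.Results.MP_794e6e_pr.LocalGibbsLaw

/-- `p` and `q` are nearest neighbours in `ℤ^d`. -/
def Adj {d : ℕ} (p q : Fin d → ℤ) : Prop := ∑ j : Fin d, |q j - p j| = 1

/-- `ω` is an `n`-step self-avoiding walk on `ℤ^d` started at the origin. -/
def IsSAW {d : ℕ} (n : ℕ) (ω : Fin (n + 1) → (Fin d → ℤ)) : Prop :=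
  ω 0 = 0 ∧ Function.Injective ω ∧ ∀ i : Fin n, Adj (ω i.castSucc) (ω i.succ)

/-- The number of the `n`-step self-avoiding walks on `ℤ^d`. -/
noncomputable def c (d n : ℕ) : ℕ := {ω : Fin (n + 1) → (Fin d → ℤ) | IsSAW n ω}.ncard

/-- The probability of the event `E` for the uniform `n`-step self-avoiding walk on `ℤ^d`. -/
noncomputable def prob (d n : ℕ) (E : (Fin (n + 1) → (Fin d → ℤ)) → Prop) : ℝ :=
  ({ω | IsSAW n ω ∧ E ω}.ncard : ℝ) / (c d n : ℝ)

/-- `μ` is the connective constant of `ℤ^d`. -/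
def IsConnective (d : ℕ) (μ : ℝ) : Prop :=
  0 < μ ∧ Tendsto (fun n : ℕ => (c d n : ℝ) ^ (1 / (n : ℝ))) atTop (𝓝 μ)

/-- `P` and `P'` are exchangeable patterns in the window `Λ`: each is a list of nonempty
self-avoiding nearest neighbour paths (strands), given as lists of sites, which lie in `Λ` and are
mutually disjoint; there are as many strands in `P` as in `P'`, and the `i`-th ones have the same
first site and the same last site. -/
def Exchangeable {d : ℕ} (Λ : Finset (Fin d → ℤ)) (P P' : List (List (Fin d → ℤ))) : Prop :=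
  List.Forall₂ (fun p p' => p ≠ [] ∧ p' ≠ [] ∧ p.head? = p'.head? ∧ p.getLast? = p'.getLast? ∧
    p.IsChain Adj ∧ p'.IsChain Adj) P P' ∧
  P.flatten.Nodup ∧ P'.flatten.Nodup ∧ (∀ v ∈ P.flatten, v ∈ Λ) ∧ (∀ v ∈ P'.flatten, v ∈ Λ)

/-- The visits of the path `l` to the set `W` are the strands of `P`, in this order:
`l = a₀ P₁ a₁ P₂ ... P_k a_k`, where `a₀, ..., a_k` avoid `W`. -/
def Shows {d : ℕ} (W : Set (Fin d → ℤ)) : List (List (Fin d → ℤ)) → List (Fin d → ℤ) → Prop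
  | [], l => ∀ v ∈ l, v ∉ W
  | p :: P, l => ∃ a b, l = a ++ (p ++ b) ∧ (∀ v ∈ a, v ∉ W) ∧ Shows W P b

/-- The walk `ω` shows the pattern `x + P` in the window `x + Λ`: the window contains none of the
first `a` and last `b` sites of the walk, and the visits of the walk to the window in between are
the strands of `x + P`, in this order. -/
def Sees {d n : ℕ} (a b : ℕ) (Λ : Finset (Fin d → ℤ)) (P : List (List (Fin d → ℤ)))
    (x : Fin d → ℤ) (ω : Fin (n + 1) → (Fin d → ℤ)) : Prop :=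
  ∃ α β γ : List (Fin d → ℤ), List.ofFn ω = α ++ (β ++ γ) ∧ α.length = a ∧ γ.length = b ∧
    (∀ v ∈ α, v - x ∉ Λ) ∧ (∀ v ∈ γ, v - x ∉ Λ) ∧
    Shows {v | v - x ∈ Λ} (P.map (List.map (x + ·))) β

/-- indicator of a proposition -/
noncomputable def ind (p : Prop) : ℝ := open Classical in if p then 1 else 0

/-- The imbalance of the two patterns, with the weights `w`:
`∑_x w x (1[ω sees x + P'] - μ^(|P| - |P'|) 1[ω sees x + P])`, where `|P|` is the number of the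
sites of `P`. -/
noncomputable def imbalance {d n : ℕ} (μ : ℝ) (a b : ℕ) (Λ : Finset (Fin d → ℤ))
    (P P' : List (List (Fin d → ℤ))) (w : (Fin d → ℤ) → ℝ) (ω : Fin (n + 1) → (Fin d → ℤ)) : ℝ :=
  ∑ᶠ x : Fin d → ℤ, w x * (ind (Sees a b Λ P' x ω) -
    μ ^ ((P.flatten.length : ℤ) - P'.flatten.length) * ind (Sees a b Λ P x ω))

theorem shows_eq {d : ℕ} (W : Set (Fin d → ℤ)) : ∀ (P : List (List (Fin d → ℤ)))
    (l : List (Fin d → ℤ)), Shows W P l ↔ Pool.Agent.H986.GB.Shows W P l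
  | [], _ => Iff.rfl
  | p :: P, l => by
    constructor
    · rintro ⟨a, b, h1, h2, h3⟩
      exact ⟨a, b, h1, h2, (shows_eq W P b).1 h3⟩
    · rintro ⟨a, b, h1, h2, h3⟩
      exact ⟨a, b, h1, h2, (shows_eq W P b).2 h3⟩

open Pool.Agent.H986.GB Pool.Agent.H580.GT in
theorem sees_eq {d n : ℕ} (a b : ℕ) (Λ : Finset (Fin d → ℤ)) (P : List (List (Fin d → ℤ)))
    (x : Fin d → ℤ) (ω : Fin (n + 1) → (Fin d → ℤ)) :
    Sees a b Λ P x ω ↔ Occ a b (win x Λ) (sh x P) (List.ofFn ω) := by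
  constructor
  · rintro ⟨α, β, γ, h1, h2, h3, h4, h5, h6⟩
    exact ⟨α, β, γ, h1, h2, h3, h4, h5, (shows_eq _ _ _).1 h6⟩
  · rintro ⟨α, β, γ, h1, h2, h3, h4, h5, h6⟩
    exact ⟨α, β, γ, h1, h2, h3, h4, h5, (shows_eq _ _ _).2 h6⟩

theorem c_eq (d n : ℕ) : c d n = Pool.Agent.H580.GT.C d n := Pool.Agent.H580.GT.C_ncard d n

theorem c_eq_three (n : ℕ) : c 3 n = Pool.Agent.H46R2.K3.c n := by
  rw [← Pool.Agent.Results.MP_794e6e_pr.LocalBalance.C_eq]
  exact (Nat.card_coe_set_eq _).symm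

/-- the connective constant and the lower bound -/
theorem connective {d : ℕ} (hd : 1 ≤ d) : ∃ μ : ℝ, IsConnective d μ ∧ ∀ n, μ ^ n ≤ (c d n : ℝ) := by
  obtain ⟨μ, h0, h1, h2⟩ := Pool.Agent.H580.GT.exists_mu hd
  refine ⟨μ, ⟨h0, ?_⟩, ?_⟩
  · simpa only [c_eq] using h1
  · simpa only [c_eq] using h2

theorem lower {d : ℕ} (hd : 1 ≤ d) {μ : ℝ} (hμ : IsConnective d μ) (n : ℕ) :
    μ ^ n ≤ (c d n : ℝ) := by
  obtain ⟨ν, h1, h2⟩ := connective hd
  have : μ = ν := tendsto_nhds_unique hμ.2 h1.2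
  rw [this]
  exact h2 n

/-- the bound with the growth of `c_j / μ^j` as a parameter -/
theorem general {d : ℕ} (hd : 1 ≤ d) {μ : ℝ} (hμ : IsConnective d μ) :
    ∃ K : ℝ, 7 ≤ K ∧ ∀ (Λ : Finset (Fin d → ℤ)) (P P' : List (List (Fin d → ℤ))),
      Exchangeable Λ P P' → ∃ Q : ℝ, 0 < Q ∧ ∀ n : ℕ, 3 ≤ n → ∀ H : ℝ, 1 ≤ H →
        (∀ j ≤ n, (c d j : ℝ) ≤ H * μ ^ j) → ∀ a b : ℕ,
        ∀ w : (Fin d → ℤ) → ℝ, (∀ x, |w x| ≤ 1) → ∀ t : ℝ, 0 ≤ t →
          prob d n (fun ω => t ≤ |imbalance μ a b Λ P P' w ω|) ≤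
            Real.exp (K * Real.log (n * H) - t ^ 2 / (Q * n)) := by
  have hlow := lower hd hμ
  refine ⟨Pool.Agent.H580.GT.KK μ, Pool.Agent.H580.GT.KK_ge μ, fun Λ P P' hP => ?_⟩
  obtain ⟨Q, hQ, h⟩ := Pool.Agent.H580.GT.main (Λ := Λ) (P := P) (P' := P') hμ.1
    (fun n => by rw [← c_eq]; exact hlow n)
    ⟨hP.1, hP.2.1, hP.2.2.1, hP.2.2.2.1, hP.2.2.2.2⟩
  refine ⟨Q, hQ, fun n hn H hH hgr a b w hw t ht => ?_⟩
  have h1 := h n hn H _ hH rfl (fun j hj => by rw [← c_eq]; exact hgr j hj) a b w hw t ht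
  have hc : (0 : ℝ) < c d n := lt_of_lt_of_le (pow_pos hμ.1 n) (hlow n)
  have e : ∀ ω : Fin (n + 1) → (Fin d → ℤ), imbalance μ a b Λ P P' w ω =
      Pool.Agent.H580.GT.imb μ a b Λ P P' w (List.ofFn ω) := by
    intro ω
    unfold imbalance Pool.Agent.H580.GT.imb
    refine finsum_congr fun x => ?_
    have e1 : ∀ R, ind (Sees a b Λ R x ω) = open Classical in
        if Pool.Agent.H986.GB.Occ a b (Pool.Agent.H580.GT.win x Λ) (Pool.Agent.H580.GT.sh x R)
          (List.ofFn ω) then (1 : ℝ) else 0 := by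
      intro R
      unfold ind
      by_cases hR : Sees a b Λ R x ω
      · rw [if_pos hR, if_pos ((sees_eq a b Λ R x ω).1 hR)]
      · rw [if_neg hR, if_neg fun hc => hR ((sees_eq a b Λ R x ω).2 hc)]
    rw [e1, e1]
  unfold prob
  rw [div_le_iff₀ hc, c_eq, mul_comm]
  simp only [e]
  exact h1

open Pool.Agent.H986.GB in
theorem imb_eq {d n : ℕ} (μ : ℝ) (a b : ℕ) (Λ : Finset (Fin d → ℤ))
    (P P' : List (List (Fin d → ℤ))) (w : (Fin d → ℤ) → ℝ) (ω : Fin (n + 1) → (Fin d → ℤ)) :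
    imbalance μ a b Λ P P' w ω = Pool.Agent.H580.GT.imb μ a b Λ P P' w (List.ofFn ω) := by
  unfold imbalance Pool.Agent.H580.GT.imb
  refine finsum_congr fun x => ?_
  have e1 : ∀ R, ind (Sees a b Λ R x ω) = open Classical in
      if Pool.Agent.H986.GB.Occ a b (Pool.Agent.H580.GT.win x Λ) (Pool.Agent.H580.GT.sh x R)
        (List.ofFn ω) then (1 : ℝ) else 0 := by
    intro R
    unfold ind
    by_cases hR : Sees a b Λ R x ω
    · rw [if_pos hR, if_pos ((sees_eq a b Λ R x ω).1 hR)]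
    · rw [if_neg hR, if_neg fun hc => hR ((sees_eq a b Λ R x ω).2 hc)]
  rw [e1, e1]

theorem c_pos (d n : ℕ) (h : 1 ≤ d ∨ n = 0) : (0 : ℝ) < c d n := by
  rw [c_eq]
  rcases h with h | h
  · exact_mod_cast Pool.Agent.H580.GT.C_pos h n
  · rw [h, Pool.Agent.H580.GT.C_zero]
    norm_num

/-- the bound relative to the number of the `n`-step walks -/
theorem relative {d : ℕ} (Λ : Finset (Fin d → ℤ)) (P P' : List (List (Fin d → ℤ)))
    (hP : Exchangeable Λ P P') (L : ℝ) (hL : 0 ≤ L) :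
    ∃ Q : ℝ, 0 < Q ∧ ∀ ν : ℝ, 0 < ν → |Real.log ν| ≤ L → ∀ n : ℕ, 1 ≤ n →
      ∀ H : ℝ, 1 ≤ H → (∀ j : ℕ, (c d j : ℝ) * ν ^ n ≤ H * c d n * ν ^ j) → ∀ a b : ℕ,
      ∀ w : (Fin d → ℤ) → ℝ, (∀ x, |w x| ≤ 1) → ∀ t : ℝ, 0 ≤ t →
        prob d n (fun ω => t ≤ |imbalance ν a b Λ P P' w ω|) ≤
          Q * n * H * Real.exp (-(t ^ 2 / (Q * n))) := by
  obtain ⟨Q, hQ, h⟩ := Pool.Agent.H580.GT.rel_main (Λ := Λ) (P := P) (P' := P')
    ⟨hP.1, hP.2.1, hP.2.2.1, hP.2.2.2.1, hP.2.2.2.2⟩ hL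
  refine ⟨Q, by linarith, fun ν hν hlog n hn H hH hgr a b w hw t ht => ?_⟩
  have h1 := h ν hν hlog n hn H hH (fun j => by rw [← c_eq, ← c_eq]; exact hgr j) a b w hw t ht
  have hc : (0 : ℝ) < c d n := by
    have h2 := hgr 0
    have h3 := c_pos d 0 (Or.inr rfl)
    rw [pow_zero, mul_one] at h2
    have h4 : 0 < (c d 0 : ℝ) * ν ^ n := mul_pos h3 (pow_pos hν n)
    have h5 : 0 < H * (c d n : ℝ) := lt_of_lt_of_le h4 h2
    exact (pos_iff_pos_of_mul_pos h5).1 (by linarith)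
  unfold prob
  rw [div_le_iff₀ hc, c_eq, mul_comm _ (Pool.Agent.H580.GT.C d n : ℝ)]
  simp only [imb_eq]
  refine h1.trans (le_of_eq ?_)
  ring

/-- infinitely many lengths -/
theorem lengths {d : ℕ} (hd : 1 ≤ d) {μ : ℝ} (hμ : IsConnective d μ) {B : ℝ} (hB : 0 ≤ B)
    (hup : ∀ n : ℕ, (c d n : ℝ) ≤ μ ^ n * Real.exp (B * √(n : ℝ))) :
    ∃ S : Set ℕ, S.Infinite ∧ ∀ (Λ : Finset (Fin d → ℤ)) (P P' : List (List (Fin d → ℤ))),
      Exchangeable Λ P P' → ∃ Q : ℝ, 0 < Q ∧ ∀ n ∈ S, ∀ a b : ℕ,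
        ∀ w : (Fin d → ℤ) → ℝ, (∀ x, |w x| ≤ 1) → ∀ t : ℝ, 0 ≤ t →
          prob d n (fun ω => t ≤ |imbalance μ a b Λ P P' w ω|) ≤
            Q * n * Real.exp (-(t ^ 2 / (Q * n))) := by
  have hlow := lower hd hμ
  obtain ⟨S, hS, h⟩ := Pool.Agent.H580.GT.good_main (d := d) hμ.1
    (fun n => by rw [← c_eq]; exact hlow n) hB (fun n => by rw [← c_eq]; exact hup n)
  refine ⟨S, hS, fun Λ P P' hP => ?_⟩
  obtain ⟨Q, hQ, h⟩ := h Λ P P' ⟨hP.1, hP.2.1, hP.2.2.1, hP.2.2.2.1, hP.2.2.2.2⟩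
  refine ⟨Q, hQ, fun n hn a b w hw t ht => ?_⟩
  have h1 := h n hn a b w hw t ht
  have hc : (0 : ℝ) < c d n := lt_of_lt_of_le (pow_pos hμ.1 n) (hlow n)
  unfold prob
  rw [div_le_iff₀ hc, c_eq, mul_comm _ (Pool.Agent.H580.GT.C d n : ℝ)]
  simp only [imb_eq]
  refine h1.trans (le_of_eq ?_)
  ring

/-- infinitely many lengths, all dimensions -/
theorem lengths' {d : ℕ} (hd : 1 ≤ d) {μ : ℝ} (hμ : IsConnective d μ) :
    ∃ S : Set ℕ, S.Infinite ∧ ∀ (Λ : Finset (Fin d → ℤ)) (P P' : List (List (Fin d → ℤ))),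
      Exchangeable Λ P P' → ∃ Q : ℝ, 0 < Q ∧ ∀ n ∈ S, ∀ a b : ℕ,
        ∀ w : (Fin d → ℤ) → ℝ, (∀ x, |w x| ≤ 1) → ∀ t : ℝ, 0 ≤ t →
          prob d n (fun ω => Q * Real.log (c d n / μ ^ n) + t ≤ |imbalance μ a b Λ P P' w ω|) ≤
            Q * n * Real.exp (-(t ^ 2 / (Q * n))) := by
  have hlow := lower hd hμ
  obtain ⟨S, hS, h⟩ := Pool.Agent.H580.GT.good_main' (d := d) hμ.1
    (fun n => by rw [← c_eq]; exact hlow n) (by simpa only [c_eq] using hμ.2)
  refine ⟨S, hS, fun Λ P P' hP => ?_⟩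
  obtain ⟨Q, hQ, h⟩ := h Λ P P' ⟨hP.1, hP.2.1, hP.2.2.1, hP.2.2.2.1, hP.2.2.2.2⟩
  refine ⟨Q, hQ, fun n hn a b w hw t ht => ?_⟩
  have h1 := h n hn a b w hw t ht
  have hc : (0 : ℝ) < c d n := lt_of_lt_of_le (pow_pos hμ.1 n) (hlow n)
  unfold prob
  rw [div_le_iff₀ hc]
  simp only [imb_eq, c_eq]
  refine h1.trans (le_of_eq ?_)
  ring

theorem mu_three {μ : ℝ} (hμ : IsConnective 3 μ) : μ = Pool.Agent.H46R2.K3.mu := by
  refine tendsto_nhds_unique hμ.2 ?_
  simpa only [c_eq_three] using Pool.Agent.H46R2.K3.P.tendsto_c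

/-- the upper bound `c_n ≤ μ^n exp (B √n)` on `ℤ³` -/
theorem three_up {μ : ℝ} (hμ : IsConnective 3 μ) :
    ∃ B : ℝ, 0 ≤ B ∧ ∀ n : ℕ, (c 3 n : ℝ) ≤ μ ^ n * Real.exp (B * √(n : ℝ)) := by
  obtain ⟨K0, hK0⟩ := Pool.Agent.Results.MP_794e6e_pr.LocalBalance.growth
  have hmu := mu_three hμ
  obtain ⟨K1, hK1⟩ : ∃ K1 : ℝ, K1 = max K0 1 := ⟨_, rfl⟩
  have hK11 : 1 ≤ K1 := by rw [hK1]; exact le_max_right _ _
  have hK01 : K0 ≤ K1 := by rw [hK1]; exact le_max_left _ _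
  obtain ⟨A, hA⟩ : ∃ A : ℝ, A = Real.exp (384 * K1 ^ 2) := ⟨_, rfl⟩
  have hA1 : 1 ≤ A := by rw [hA]; exact Real.one_le_exp (by positivity)
  obtain ⟨B, hB⟩ : ∃ B : ℝ, B = K1 * A + |Real.log (c 3 1 / μ ^ 1)| + |Real.log (c 3 2 / μ ^ 2)| :=
    ⟨_, rfl⟩
  have hKA : 0 ≤ K1 * A := by positivity
  have hB0 : 0 ≤ B := by rw [hB]; positivity
  have hBA : K1 * A ≤ B := by
    rw [hB]
    have := abs_nonneg (Real.log (c 3 1 / μ ^ 1))
    have := abs_nonneg (Real.log (c 3 2 / μ ^ 2))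
    linarith
  refine ⟨B, hB0, fun n => ?_⟩
  have hμn : 0 < μ ^ n := pow_pos hμ.1 n
  have hsmall : |Real.log (c 3 n / μ ^ n)| ≤ B → 1 ≤ n →
      (c 3 n : ℝ) ≤ μ ^ n * Real.exp (B * √(n : ℝ)) := by
    intro h hn
    have hc := c_pos 3 n (Or.inl (by norm_num))
    have h1 : (c 3 n : ℝ) / μ ^ n ≤ Real.exp B := by
      rw [← Real.log_le_iff_le_exp (by positivity)]
      exact (le_abs_self _).trans h
    rw [div_le_iff₀ hμn, mul_comm] at h1
    refine h1.trans (mul_le_mul_of_nonneg_left (Real.exp_le_exp.2 ?_) hμn.le)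
    have : 1 ≤ √(n : ℝ) := Real.one_le_sqrt.2 (by exact_mod_cast hn)
    nlinarith
  rcases Nat.lt_or_ge n 3 with h3 | h3
  · interval_cases n
    · rw [c_eq, Pool.Agent.H580.GT.C_zero]
      simp
    · apply hsmall _ le_rfl
      rw [hB]
      have := abs_nonneg (Real.log (c 3 2 / μ ^ 2))
      linarith
    · apply hsmall _ (by norm_num)
      rw [hB]
      have := abs_nonneg (Real.log (c 3 1 / μ ^ 1))
      linarith
  obtain ⟨H, hH1, hH2⟩ := hK0 n h3
  have hn3 : (3 : ℝ) ≤ n := by exact_mod_cast h3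
  have hn0 : (0 : ℝ) < n := by linarith
  have h1 : (c 3 n : ℝ) ≤ H * μ ^ n := by
    rw [hmu, c_eq_three, ← Pool.Agent.Results.MP_794e6e_pr.LocalBalance.C_eq]
    exact hH1 n (by omega)
  have hHpos : 0 ≤ H := by
    by_contra hneg
    push Not at hneg
    have h2 : H * μ ^ n < 0 := mul_neg_of_neg_of_pos hneg hμn
    have h3' : (0 : ℝ) ≤ c 3 n := Nat.cast_nonneg _
    linarith
  obtain ⟨y, hy⟩ : ∃ y : ℝ, y = Real.log (n : ℝ) := ⟨_, rfl⟩
  have hy1 : 1 ≤ y := by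
    rw [hy, Real.le_log_iff_exp_le hn0]
    have := Real.exp_one_lt_d9
    linarith
  rw [← hy] at hH2
  have hlog2 : K1 * Real.log y ^ 2 ≤ y / 6 + 384 * K1 ^ 2 := by
    have hy4 : 0 < y ^ (1 / 4 : ℝ) := Real.rpow_pos_of_pos (by linarith) _
    have h2 : Real.log y = 4 * Real.log (y ^ (1 / 4 : ℝ)) := by
      rw [Real.log_rpow (by linarith)]
      ring
    have h4 := Real.log_le_sub_one_of_pos hy4
    have h5 : Real.log y ≤ 4 * y ^ (1 / 4 : ℝ) := by rw [h2]; linarith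
    have h6 : 0 ≤ Real.log y := Real.log_nonneg hy1
    obtain ⟨v, hv⟩ : ∃ v : ℝ, v = (y ^ (1 / 4 : ℝ)) ^ 2 := ⟨_, rfl⟩
    have hv2 : v ^ 2 = y := by
      rw [hv, ← pow_mul, ← Real.rpow_natCast, ← Real.rpow_mul (by linarith)]
      norm_num
    have h7 : Real.log y ^ 2 ≤ 16 * v := by
      calc Real.log y ^ 2 ≤ (4 * y ^ (1 / 4 : ℝ)) ^ 2 := pow_le_pow_left₀ h6 h5 2
        _ = 16 * v := by rw [hv]; ring
    have h8 : K1 * Real.log y ^ 2 ≤ K1 * (16 * v) := mul_le_mul_of_nonneg_left h7 (by linarith)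
    nlinarith [sq_nonneg (v - 48 * K1)]
  have hexp6 : Real.exp (y / 6) = (n : ℝ) ^ (1 / 6 : ℝ) := by
    rw [Real.rpow_def_of_pos hn0, ← hy]
    congr 1
    ring
  have h2 : H ≤ Real.exp (B * √(n : ℝ)) := by
    have hone : H ≤ 2 * Real.exp 1 * H := by
      have : 1 ≤ 2 * Real.exp 1 := by
        have := Real.add_one_le_exp (1 : ℝ)
        linarith
      nlinarith
    refine hone.trans (hH2.trans (Real.exp_le_exp.2 ?_))
    have hn13 : 0 < (n : ℝ) ^ (1 / 3 : ℝ) := Real.rpow_pos_of_pos hn0 _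
    have h5 : K0 * (n : ℝ) ^ (1 / 3 : ℝ) ≤ K1 * (n : ℝ) ^ (1 / 3 : ℝ) :=
      mul_le_mul_of_nonneg_right hK01 hn13.le
    have h6 : Real.exp (K0 * Real.log y ^ 2) ≤ (n : ℝ) ^ (1 / 6 : ℝ) * A := by
      rw [← hexp6, hA, ← Real.exp_add]
      apply Real.exp_le_exp.2
      have := mul_le_mul_of_nonneg_right hK01 (sq_nonneg (Real.log y))
      linarith
    calc K0 * (n : ℝ) ^ (1 / 3 : ℝ) * Real.exp (K0 * Real.log y ^ 2)
        ≤ K1 * (n : ℝ) ^ (1 / 3 : ℝ) * Real.exp (K0 * Real.log y ^ 2) :=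
          mul_le_mul_of_nonneg_right h5 (Real.exp_pos _).le
      _ ≤ K1 * (n : ℝ) ^ (1 / 3 : ℝ) * ((n : ℝ) ^ (1 / 6 : ℝ) * A) :=
          mul_le_mul_of_nonneg_left h6 (by positivity)
      _ = K1 * A * √(n : ℝ) := by
          rw [Real.sqrt_eq_rpow, show (1 / 2 : ℝ) = 1 / 3 + 1 / 6 by norm_num,
            Real.rpow_add hn0]
          ring
      _ ≤ B * √(n : ℝ) := mul_le_mul_of_nonneg_right hBA (Real.sqrt_nonneg _)
  calc (c 3 n : ℝ) ≤ H * μ ^ n := h1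
    _ ≤ Real.exp (B * √(n : ℝ)) * μ ^ n := mul_le_mul_of_nonneg_right h2 hμn.le
    _ = _ := mul_comm _ _

/-- **Theorem.** Let `d ≥ 1` and let `μ` be the connective constant of `ℤ^d`.
(2) There is `K` such that for all exchangeable patterns `P`, `P'` in a window `Λ` there is `Q > 0` such
that for all `n ≥ 3` and `H ≥ 1` with `c_j ≤ H μ^j` for all `j ≤ n`, all `a`, `b`, all weights
`-1 ≤ w x ≤ 1` and all `t ≥ 0`, for the uniform `n`-step self-avoiding walk `ω`, the probability that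
`|∑_x w x (1[ω sees x + P'] - μ^(|P| - |P'|) 1[ω sees x + P])| ≥ t` is at most
`(n H)^K exp (-t² / (Q n))`.
(3) If `c_j ≤ H c_n ν^(j - n)` for all `j`, then the same probability, with `ν` in place of `μ`, is at most
`Q n H exp (-t² / (Q n))`, where `Q` depends on the patterns and on a bound `L` of `|log ν|` only.
(4) There is an infinite set of lengths `n` such that for all exchangeable patterns there is `Q > 0` with:
at these lengths the probability that `|∑_x ...| ≥ Q log (c_n / μ^n) + t` is at most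
`Q n exp (-t² / (Q n))`. (By the theorem of Hammersley and Welsh `log (c_n / μ^n) ≤ B √n`.)
(5) On `ℤ³` there is an infinite set of lengths `n` at which the probability of (2) is at most
`Q n exp (-t² / (Q n))`, for all exchangeable patterns, with `Q` depending on the patterns only.
(6) On `ℤ³` the probability of (2) is at most `exp (K n^(1/3) exp (K (log log n)²) - t² / (Q n))` for all
`n ≥ 3`, without any condition, and `K` does not depend on the patterns. -/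
theorem result :
    -- (1) the connective constant
    (∀ d : ℕ, 1 ≤ d → ∃ μ : ℝ, IsConnective d μ) ∧
    -- (2) all dimensions
    (∀ d : ℕ, 1 ≤ d → ∀ μ : ℝ, IsConnective d μ →
      ∃ K : ℝ, 0 < K ∧ ∀ (Λ : Finset (Fin d → ℤ)) (P P' : List (List (Fin d → ℤ))),
        Exchangeable Λ P P' → ∃ Q : ℝ, 0 < Q ∧ ∀ n : ℕ, 3 ≤ n → ∀ H : ℝ, 1 ≤ H →
          (∀ j ≤ n, (c d j : ℝ) ≤ H * μ ^ j) → ∀ a b : ℕ,
          ∀ w : (Fin d → ℤ) → ℝ, (∀ x, |w x| ≤ 1) → ∀ t : ℝ, 0 ≤ t →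
            prob d n (fun ω => t ≤ |imbalance μ a b Λ P P' w ω|) ≤
              ((n : ℝ) * H) ^ K * Real.exp (-(t ^ 2 / (Q * n)))) ∧
    -- (3) all dimensions, relative to the number of the `n`-step walks
    (∀ (d : ℕ) (Λ : Finset (Fin d → ℤ)) (P P' : List (List (Fin d → ℤ))), Exchangeable Λ P P' →
      ∀ L : ℝ, 0 ≤ L → ∃ Q : ℝ, 0 < Q ∧ ∀ ν : ℝ, 0 < ν → |Real.log ν| ≤ L → ∀ n : ℕ, 1 ≤ n →
        ∀ H : ℝ, 1 ≤ H → (∀ j : ℕ, (c d j : ℝ) * ν ^ n ≤ H * c d n * ν ^ j) → ∀ a b : ℕ,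
        ∀ w : (Fin d → ℤ) → ℝ, (∀ x, |w x| ≤ 1) → ∀ t : ℝ, 0 ≤ t →
          prob d n (fun ω => t ≤ |imbalance ν a b Λ P P' w ω|) ≤
            Q * n * H * Real.exp (-(t ^ 2 / (Q * n)))) ∧
    -- (4) all dimensions, infinitely many lengths
    (∀ d : ℕ, 1 ≤ d → ∀ μ : ℝ, IsConnective d μ →
      ∃ S : Set ℕ, S.Infinite ∧ ∀ (Λ : Finset (Fin d → ℤ)) (P P' : List (List (Fin d → ℤ))),
        Exchangeable Λ P P' → ∃ Q : ℝ, 0 < Q ∧ ∀ n ∈ S, ∀ a b : ℕ,
          ∀ w : (Fin d → ℤ) → ℝ, (∀ x, |w x| ≤ 1) → ∀ t : ℝ, 0 ≤ t →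
            prob d n (fun ω => Q * Real.log (c d n / μ ^ n) + t ≤ |imbalance μ a b Λ P P' w ω|) ≤
              Q * n * Real.exp (-(t ^ 2 / (Q * n)))) ∧
    -- (5) `ℤ³`, infinitely many lengths
    (∀ μ : ℝ, IsConnective 3 μ →
      ∃ S : Set ℕ, S.Infinite ∧ ∀ (Λ : Finset (Fin 3 → ℤ)) (P P' : List (List (Fin 3 → ℤ))),
        Exchangeable Λ P P' → ∃ Q : ℝ, 0 < Q ∧ ∀ n ∈ S, ∀ a b : ℕ,
          ∀ w : (Fin 3 → ℤ) → ℝ, (∀ x, |w x| ≤ 1) → ∀ t : ℝ, 0 ≤ t →
            prob 3 n (fun ω => t ≤ |imbalance μ a b Λ P P' w ω|) ≤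
              Q * n * Real.exp (-(t ^ 2 / (Q * n)))) ∧
    -- (6) `ℤ³`, all lengths
    (∀ μ : ℝ, IsConnective 3 μ →
      ∃ K : ℝ, 0 < K ∧ ∀ (Λ : Finset (Fin 3 → ℤ)) (P P' : List (List (Fin 3 → ℤ))),
        Exchangeable Λ P P' → ∃ Q : ℝ, 0 < Q ∧ ∀ n : ℕ, 3 ≤ n → ∀ a b : ℕ,
          ∀ w : (Fin 3 → ℤ) → ℝ, (∀ x, |w x| ≤ 1) → ∀ t : ℝ, 0 ≤ t →
            prob 3 n (fun ω => t ≤ |imbalance μ a b Λ P P' w ω|) ≤
              Real.exp (K * (n : ℝ) ^ (1 / 3 : ℝ) * Real.exp (K * Real.log (Real.log n) ^ 2) -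
                t ^ 2 / (Q * n))) := by
  refine ⟨fun d hd => (connective hd).imp fun μ h => h.1, fun d hd μ hμ => ?_,
    fun d Λ P P' hP L hL => relative Λ P P' hP L hL, fun d hd μ hμ => lengths' hd hμ,
    fun μ hμ => ?_, fun μ hμ => ?_⟩
  · obtain ⟨K, hK, h⟩ := general hd hμ
    refine ⟨K, by linarith, fun Λ P P' hP => ?_⟩
    obtain ⟨Q, hQ, h⟩ := h Λ P P' hP
    refine ⟨Q, hQ, fun n hn H hH hgr a b w hw t ht => ?_⟩
    refine (h n hn H hH hgr a b w hw t ht).trans (le_of_eq ?_)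
    have hn0 : (0 : ℝ) < n := by positivity
    have hnH : 0 < (n : ℝ) * H := by positivity
    rw [sub_eq_add_neg, Real.exp_add, Real.rpow_def_of_pos hnH, mul_comm K]
  · obtain ⟨B, hB, hup⟩ := three_up hμ
    exact lengths (by norm_num) hμ hB hup
  · obtain ⟨K, hK, h⟩ := general (by norm_num) hμ
    obtain ⟨K0, hK0⟩ := Pool.Agent.Results.MP_794e6e_pr.LocalBalance.growth
    have hmu : μ = Pool.Agent.H46R2.K3.mu := by
      refine tendsto_nhds_unique hμ.2 ?_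
      simpa only [c_eq_three] using Pool.Agent.H46R2.K3.P.tendsto_c
    obtain ⟨K1, hK1⟩ : ∃ K1 : ℝ, K1 = max K0 0 := ⟨_, rfl⟩
    have hK10 : 0 ≤ K1 := by rw [hK1]; exact le_max_right _ _
    have hK01 : K0 ≤ K1 := by rw [hK1]; exact le_max_left _ _
    refine ⟨K * (3 + K1), by nlinarith, fun Λ P P' hP => ?_⟩
    obtain ⟨Q, hQ, h⟩ := h Λ P P' hP
    refine ⟨Q, hQ, fun n hn a b w hw t ht => ?_⟩
    obtain ⟨H, hH1, hH2⟩ := hK0 n hn
    have hn0 : (0 : ℝ) < n := by positivity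
    have hn3 : (3 : ℝ) ≤ n := by exact_mod_cast hn
    have hH : 1 ≤ H := by
      have h1 := hH1 0 (by omega)
      have h2 : (1 : ℝ) ≤ Pool.Agent.Results.MP_794e6e_pr.LocalBalance.C 0 := by
        rw [Pool.Agent.Results.MP_794e6e_pr.LocalBalance.C_eq, ← c_eq_three, c_eq]
        exact_mod_cast Pool.Agent.H580.GT.C_pos (by norm_num) 0
      rw [pow_zero, mul_one] at h1
      linarith
    have h1 := h n hn H hH (fun j hj => by
      rw [hmu, c_eq_three, ← Pool.Agent.Results.MP_794e6e_pr.LocalBalance.C_eq]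
      exact hH1 j (by omega)) a b w hw t ht
    refine h1.trans ?_
    apply Real.exp_le_exp.2
    obtain ⟨x, hx⟩ : ∃ x : ℝ, x = Real.log (Real.log (n : ℝ)) := ⟨_, rfl⟩
    rw [← hx] at hH2 ⊢
    have hn1 : 1 ≤ (n : ℝ) ^ (1 / 3 : ℝ) := Real.one_le_rpow (by linarith) (by norm_num)
    have hn13 : 0 < (n : ℝ) ^ (1 / 3 : ℝ) := by linarith
    have hlogH : Real.log H ≤ K1 * (n : ℝ) ^ (1 / 3 : ℝ) * Real.exp (K1 * x ^ 2) := by
      have h3 : H ≤ Real.exp (K1 * (n : ℝ) ^ (1 / 3 : ℝ) * Real.exp (K1 * x ^ 2)) := by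
        have h4 : H ≤ 2 * Real.exp 1 * H := by
          have : 1 ≤ 2 * Real.exp 1 := by
            have := Real.add_one_le_exp (1 : ℝ)
            linarith
          nlinarith
        refine h4.trans (hH2.trans (Real.exp_le_exp.2 ?_))
        have h5 : K0 * (n : ℝ) ^ (1 / 3 : ℝ) ≤ K1 * (n : ℝ) ^ (1 / 3 : ℝ) :=
          mul_le_mul_of_nonneg_right hK01 hn13.le
        have h6 : Real.exp (K0 * x ^ 2) ≤ Real.exp (K1 * x ^ 2) :=
          Real.exp_le_exp.2 (mul_le_mul_of_nonneg_right hK01 (sq_nonneg x))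
        calc K0 * (n : ℝ) ^ (1 / 3 : ℝ) * Real.exp (K0 * x ^ 2)
            ≤ K1 * (n : ℝ) ^ (1 / 3 : ℝ) * Real.exp (K0 * x ^ 2) :=
              mul_le_mul_of_nonneg_right h5 (Real.exp_pos _).le
          _ ≤ _ := mul_le_mul_of_nonneg_left h6 (by positivity)
      rw [Real.log_le_iff_le_exp (by linarith)]
      exact h3
    have hlogn : Real.log (n : ℝ) ≤ 3 * (n : ℝ) ^ (1 / 3 : ℝ) := by
      have h3 : Real.log (n : ℝ) = 3 * Real.log ((n : ℝ) ^ (1 / 3 : ℝ)) := by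
        rw [Real.log_rpow hn0]
        ring
      have h4 := Real.log_le_sub_one_of_pos hn13
      rw [h3]
      linarith
    have hE1 : 1 ≤ Real.exp (K1 * x ^ 2) := Real.one_le_exp (by positivity)
    have hG : Real.log (n * H) ≤ (3 + K1) * (n : ℝ) ^ (1 / 3 : ℝ) * Real.exp (K1 * x ^ 2) := by
      rw [Real.log_mul hn0.ne' (by linarith)]
      have h5 : 3 * (n : ℝ) ^ (1 / 3 : ℝ) ≤ 3 * (n : ℝ) ^ (1 / 3 : ℝ) * Real.exp (K1 * x ^ 2) :=
        le_mul_of_one_le_right (by positivity) hE1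
      have e : (3 + K1) * (n : ℝ) ^ (1 / 3 : ℝ) * Real.exp (K1 * x ^ 2) =
          3 * (n : ℝ) ^ (1 / 3 : ℝ) * Real.exp (K1 * x ^ 2) +
            K1 * (n : ℝ) ^ (1 / 3 : ℝ) * Real.exp (K1 * x ^ 2) := by ring
      rw [e]
      linarith
    have hEE : Real.exp (K1 * x ^ 2) ≤ Real.exp (K * (3 + K1) * x ^ 2) := by
      apply Real.exp_le_exp.2
      apply mul_le_mul_of_nonneg_right _ (sq_nonneg x)
      nlinarith
    have h7 : K * Real.log (n * H) ≤
        K * (3 + K1) * (n : ℝ) ^ (1 / 3 : ℝ) * Real.exp (K * (3 + K1) * x ^ 2) := by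
      calc K * Real.log (n * H) ≤ K * ((3 + K1) * (n : ℝ) ^ (1 / 3 : ℝ) * Real.exp (K1 * x ^ 2)) :=
            mul_le_mul_of_nonneg_left hG (by linarith)
        _ = (K * (3 + K1) * (n : ℝ) ^ (1 / 3 : ℝ)) * Real.exp (K1 * x ^ 2) := by ring
        _ ≤ _ := mul_le_mul_of_nonneg_left hEE (by positivity)
    linarith

end Pool.Agent.Results.MP_794e6e_pr.LocalGibbsLaw
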